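import Pool.Agent.helper43.TG.Spec

/-! # tg:TH2: the upper bound with explicit constants -/

set_option autoImplicit false

namespace Pool.Agent.helper43.TG

open Pool.Agent.helper70.Sachs (IsPacking touchingGraph chi)

theorem TH2_log43 : (0.2876 : ℝ) ≤ Real.log (4 / 3) := by
  rw [Real.le_log_iff_exp_le (by norm_num)]
  refine (Real.exp_bound' (by norm_num) (by norm_num) (n := 6) (by norm_num)).trans ?_
  simp only [Finset.sum_range_succ, Finset.sum_range_zero, Nat.factorial]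
  norm_num

theorem TH2_log161 : Real.log 161 ≤ 5.1 := by
  rw [Real.log_le_iff_le_exp (by norm_num)]
  have h1 := Real.exp_one_gt_d9
  have h2 : Real.exp 5.1 = Real.exp 1 ^ 5 * Real.exp 0.1 := by
    rw [← Real.exp_nat_mul, ← Real.exp_add]
    congr 1
    norm_num
  have h3 : (1.1 : ℝ) ≤ Real.exp 0.1 := by
    have := Real.add_one_le_exp (0.1 : ℝ)
    linarith
  have h4 : (148 : ℝ) ≤ Real.exp 1 ^ 5 := by
    calc (148 : ℝ) ≤ 2.7182818283 ^ 5 := by norm_num
      _ ≤ Real.exp 1 ^ 5 := pow_le_pow_left₀ (by norm_num) h1.le 5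
  rw [h2]
  calc (161 : ℝ) ≤ 148 * 1.1 := by norm_num
    _ ≤ Real.exp 1 ^ 5 * Real.exp 0.1 := mul_le_mul h4 h3 (by norm_num) (by positivity)

theorem TH2_logtau (hl : KLB) {n : ℕ} (hn : 1 ≤ n) : 0.1438 * (n : ℝ) ≤ Real.log (tau n) := by
  have h3 : (0 : ℝ) < Real.sqrt 3 := Real.sqrt_pos.2 (by norm_num)
  have h1 := Real.log_le_log (by positivity) (hl n hn)
  rw [Real.log_pow, Real.log_div (by norm_num) h3.ne', Real.log_sqrt (by norm_num)] at h1
  have h4 := TH2_log43
  rw [Real.log_div (by norm_num) (by norm_num)] at h4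
  have h5 : Real.log 4 = 2 * Real.log 2 := by
    rw [show (4 : ℝ) = 2 ^ 2 by norm_num, Real.log_pow]
    norm_num
  rw [h5] at h4
  have h6 : (0 : ℝ) ≤ n := Nat.cast_nonneg n
  have h7 : (0.1438 : ℝ) ≤ Real.log 2 - Real.log 3 / 2 := by linarith
  calc 0.1438 * (n : ℝ) = n * 0.1438 := by ring
    _ ≤ n * (Real.log 2 - Real.log 3 / 2) := mul_le_mul_of_nonneg_left h7 h6
    _ ≤ Real.log (tau n) := h1

theorem t_th2 (h1 : TH1) (ht : TRV) (hl : KLB) (hd : DEG) (ha : TAL) : TH2 := by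
  intro n hn
  have hnR : (1 : ℝ) ≤ n := by exact_mod_cast hn
  have hn0 : (0 : ℝ) < n := by linarith
  have htn : (n : ℝ) ≤ tau n := by exact_mod_cast ha n
  have hdeg : ∀ M : Set (E n), IsPacking M → ∀ x ∈ M, ∀ N : Finset (E n), (∀ y ∈ N, y ∈ M ∧ dist y x = 2) →
      N.card ≤ tau n := by
    intro M hM x _ N hN
    exact hd n N x (fun y hy => (hN y hy).2) (fun y hy y' hy' hne => hM y (hN y hy).1 y' (hN y' hy').1 hne)
  unfold chi
  refine iSup_le fun M => ?_
  refine SimpleGraph.Colorable.chromaticNumber_le ?_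
  by_cases hbig : n < 10 ^ 4
  · refine (ht n (tau n) M.1 M.2 (hdeg M.1 M.2)).mono ?_
    refine Nat.le_floor ?_
    have h2 : (n : ℝ) ≤ 10 ^ 4 := by exact_mod_cast hbig.le
    rw [le_div_iff₀ hn0]
    push_cast
    nlinarith
  · have h2 : (10 : ℝ) ^ 4 ≤ n := by exact_mod_cast Nat.le_of_not_lt hbig
    have hlog := TH2_logtau hl hn
    have h161 := TH2_log161
    have h161' : 0 ≤ Real.log 161 := Real.log_nonneg (by norm_num)
    have hlpos : 0 < Real.log (tau n) := lt_of_lt_of_le (by positivity) hlog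
    have htpos : (0 : ℝ) < tau n := by linarith
    refine h1 n 160 _ (tau n : ℝ) M.1 (by
      have : 10 ^ 4 ≤ n := Nat.le_of_not_lt hbig
      omega) (by norm_num) htpos ?_ M.2 ?_ ?_
    · have e : (((160 : ℕ) : ℝ) + 1) = 161 := by norm_num
      rw [e]
      refine le_trans ?_ hlog
      calc (600 * (n : ℝ) / 161 ^ 2 + 48) * Real.log 161 ≤ (600 * (n : ℝ) / 161 ^ 2 + 48) * 5.1 :=
            mul_le_mul_of_nonneg_left h161 (by positivity)
        _ = 3060 / 25921 * (n : ℝ) + 244.8 := by ring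
        _ ≤ 0.1438 * n := by
            have h2' : (10000 : ℝ) ≤ n := by
              calc (10000 : ℝ) = 10 ^ 4 := by norm_num
                _ ≤ n := h2
            linarith
    · intro x hx N hN
      exact_mod_cast hdeg M.1 M.2 x hx N hN
    · have h3 : (10 : ℝ) ^ 5 * (tau n : ℝ) / n - 1 < (⌊(10 : ℝ) ^ 5 * (tau n : ℝ) / (n : ℝ)⌋₊ : ℝ) :=
        Nat.sub_one_lt_floor _
      refine le_trans ?_ h3.le
      have h4 : 80 * ((160 : ℕ) : ℝ) * (tau n : ℝ) / Real.log (tau n) ≤ 12800 * (tau n : ℝ) / (0.1438 * n) := by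
        have e : 80 * ((160 : ℕ) : ℝ) * (tau n : ℝ) = 12800 * (tau n : ℝ) := by norm_num
        rw [e]
        exact div_le_div_of_nonneg_left (by positivity) (by positivity) hlog
      refine h4.trans ?_
      have h5 : 1 ≤ (tau n : ℝ) / n := by
        rw [le_div_iff₀ hn0]
        linarith
      have e1 : 12800 * (tau n : ℝ) / (0.1438 * n) = 12800 / 0.1438 * ((tau n : ℝ) / n) := by
        field_simp
      have e2 : (10 : ℝ) ^ 5 * (tau n : ℝ) / n = 10 ^ 5 * ((tau n : ℝ) / n) := by ring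
      rw [e1, e2]
      have h6 : (12800 : ℝ) / 0.1438 ≤ 99999 := by norm_num
      nlinarith

end Pool.Agent.helper43.TG
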